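import Mathlib
import Pool.Agent.Helper82.OS.Defs
import Pool.Agent.Helper82.OS.Defs2
import Pool.Agent.Helper82.OS.Defs3

/-!
# Pointwise inequality in dimensions `N ≥ 4`: definitions and statements of the parts

`Fr N`, `E`, `gt`, `gw`, `Psi`: see `Pool.Agent.Helper82.OS.Defs*`.
-/
set_option autoImplicit false
open Matrix MeasureTheory Set Metric Filter Topology
open scoped ENNReal Nat

namespace Pool.Agent.W546.ST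
open Pool.Agent.Helper82.OS

/-! ## scalar functions -/

/-- `h_l(a) = l + (1 - 2 l) sin² a` -/
noncomputable def hh (l a : ℝ) : ℝ := l + (1 - 2 * l) * Real.sin a ^ 2

/-- `h^{n/2 - k}` -/
noncomputable def hq (n k : ℕ) (l a : ℝ) : ℝ := Real.sqrt (hh l a ^ n) / hh l a ^ k

/-- mean value over `[0, π]` -/
noncomputable def mn (f : ℝ → ℝ) : ℝ := (1 / Real.pi) * ∫ a in (0 : ℝ)..Real.pi, f a

/-- mean of `h^{n/2-k}` -/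
noncomputable def Eq (n k : ℕ) (l : ℝ) : ℝ := mn (hq n k l)

/-- `(N-1)(2N+1) h^{p-1} - 3(N+1) h^p + (N+2) l(1-l) h^{p-2}` with `N = n+1`, `p = n/2` -/
noncomputable def br (n : ℕ) (l a : ℝ) : ℝ :=
  (n : ℝ) * (2 * n + 3) * hq n 1 l a - 3 * ((n : ℝ) + 2) * hq n 0 l a
    + ((n : ℝ) + 3) * (l * (1 - l)) * hq n 2 l a

noncomputable def X0 (n : ℕ) (l : ℝ) : ℝ :=
  mn fun a => (2 * (n : ℝ) + 3) * hq n 0 l a + Real.sin a ^ 2 * br n l a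

noncomputable def X1 (n : ℕ) (l : ℝ) : ℝ := mn fun a => (1 - 2 * Real.sin a ^ 2) * br n l a

noncomputable def Y0 (n : ℕ) (l : ℝ) : ℝ := 2 * ((n : ℝ) + 1) * n * Eq n 0 l

/-- the constants, `N = n + 1` even -/
noncomputable def rho (n : ℕ) : ℝ :=
  Real.Gamma ((n : ℝ) + 2) ^ 2 / (Real.Gamma ((n : ℝ) + 5 / 2) * Real.Gamma ((n : ℝ) + 3 / 2))

noncomputable def cst (n : ℕ) : ℝ :=
  (2 * Real.pi) ^ ((n + 1) / 2) * (Real.sqrt (Real.pi / 2) * (n‼ : ℝ)) * (2 * Real.pi)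

noncomputable def G0 (n : ℕ) : ℝ :=
  (2 * Real.pi) ^ ((n + 1) / 2) * Real.pi * ((2 * n + 1)‼ : ℝ) / (2 ^ n * (n ! : ℝ))
    * (2 ^ ((n + 1) / 2) * (((n - 1) / 2)! : ℝ))

/-- `K_N`, a rational number -/
noncomputable def Kn (n : ℕ) : ℝ :=
  ((2 * n + 1)‼ : ℝ) ^ 4 * (2 * n + 3) * 4 ^ ((n + 1) / 2) * (((n - 1) / 2)! : ℝ) ^ 2
    / (4 ^ (2 * n + 2) * (n ! : ℝ) ^ 2 * (n‼ : ℝ) ^ 2 * ((n + 1)! : ℝ) ^ 2)

/-! ## adapted planes -/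

/-- `N = n + 1`; row `0` is the distinguished row -/
structure PA (n : ℕ) where
  A : Matrix (Fin (n + 1)) (Fin (n + 1)) ℝ
  C : Matrix (Fin (n + 1)) (Fin (n + 1)) ℝ
  s : ℝ
  on : A * Aᵀ + C * Cᵀ + Matrix.single 0 0 (s ^ 2) = 1
  al : ∑ j : Fin n, A j.succ ⬝ᵥ C j.succ = 0
  hl : 2 * ∑ j : Fin n, A j.succ ⬝ᵥ A j.succ ≤ n

namespace PA
variable {n : ℕ} (P : PA n)
noncomputable def lam : ℝ := (∑ j : Fin n, P.A j.succ ⬝ᵥ P.A j.succ) / n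
noncomputable def tau : ℝ := P.A 0 ⬝ᵥ P.A 0
noncomputable def M (y t : ℝ) : Matrix (Fin (n + 1)) (Fin (n + 1)) ℝ := y • P.A + t • P.C
noncomputable def va (t : ℝ) (f : Fin (n + 1) → ℝ) : Fin (n + 1) → ℝ :=
  P.A *ᵥ f + (t * P.s) • Pi.single 0 1
noncomputable def vb (y : ℝ) (f : Fin (n + 1) → ℝ) : Fin (n + 1) → ℝ :=
  P.C *ᵥ f - (y * P.s) • Pi.single 0 1
/-- the square of the integrand -/
noncomputable def J2 (y t : ℝ) (f : Fin (n + 1) → ℝ) : ℝ :=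
  (P.M y t * (P.M y t)ᵀ + vecMulVec (P.va t f) (P.va t f) + vecMulVec (P.vb y f) (P.vb y f)).det
/-- the Gaussian integral -/
noncomputable def GJ : ℝ≥0∞ :=
  ∫⁻ y : ℝ, ∫⁻ t : ℝ, ∫⁻ f : E (n + 1),
    ENNReal.ofReal (Real.sqrt (P.J2 y t f.ofLp) * (gt y * gt t * gw f))
noncomputable def GQ (l : ℝ) : ℝ≥0∞ :=
  ∫⁻ y : ℝ, ∫⁻ t : ℝ, ∫⁻ f : E (n + 1),
    ENNReal.ofReal (P.J2 y t f.ofLp / Real.sqrt ((l * y ^ 2 + (1 - l) * t ^ 2) ^ n) * (gt y * gt t * gw f))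
/-- `Y(α)` and its derivative -/
noncomputable def Y (a : ℝ) : Matrix (Fin (n + 1)) (Fin (n + 1)) ℝ := Real.cos a • P.A + Real.sin a • P.C
noncomputable def Yd (a : ℝ) : Matrix (Fin (n + 1)) (Fin (n + 1)) ℝ := -Real.sin a • P.A + Real.cos a • P.C
noncomputable def T (a : ℝ) : Matrix (Fin (n + 1)) (Fin (n + 1)) ℝ := (P.Y a).adjugate * P.Yd a
noncomputable def ze (a : ℝ) : Fin (n + 1) → ℝ := P.s • ((P.Y a).adjugate *ᵥ Pi.single 0 1)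
/-- the integrand after averaging over `f` and over `r` -/
noncomputable def I (a : ℝ) : ℝ :=
  (2 * (n : ℝ) + 3) * (P.Y a).det ^ 2 + (P.T a * (P.T a)ᵀ).trace + 2 * ((n : ℝ) + 1) * (P.ze a ⬝ᵥ P.ze a)
    + (1 / (n : ℝ)) * (((n : ℝ) + 2) * (P.T a * (P.T a)ᵀ).trace - (P.T a * P.T a).trace - (P.T a).trace ^ 2)
noncomputable def H (a : ℝ) : Matrix (Fin (n + 1)) (Fin (n + 1)) ℝ := P.Y a * (P.Y a)ᵀ
end PA

noncomputable def GK (n : ℕ) (l : ℝ) : ℝ≥0∞ :=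
  ∫⁻ y : ℝ, ∫⁻ t : ℝ, ∫⁻ f : E (n + 1),
    ENNReal.ofReal (Real.sqrt ((l * y ^ 2 + (1 - l) * t ^ 2) ^ n) * (gt y * gt t * gw f))

/-- Gaussian integral of a normal form -/
noncomputable def GFr {N : ℕ} (F : Fr N) : ℝ≥0∞ :=
  ∫⁻ w : E (N + 1), (∫⁻ t : ℝ, ENNReal.ofReal (F.FF t w * gt t * gw w))

/-! ## general normal form, for the near region -/

structure GN (N : ℕ) where
  e : E (N + 1)
  q : Fin N → E (N + 1)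
  c : Fin N → ℝ
  Ga : Fin N → (E (N + 1) →ₗ[ℝ] E (N + 1))
  he : ‖e‖ = 1
  hq : Orthonormal ℝ q
  hqe : ∀ j, inner ℝ (q j) e = 0
  hc : ∀ j, 0 ≤ c j
  hsk : ∀ j x y, inner ℝ (Ga j x) y = - inner ℝ x (Ga j y)
  hcs : ∀ j, c j ^ 2 + (1 / 2) * ∑ a : Fin (N + 1), ‖Ga j (EuclideanSpace.single a 1)‖ ^ 2 = 1
  hcrit : ∑ j, c j • Ga j (q j) = 0

namespace GN
variable {N : ℕ} (G : GN N)
noncomputable def lv (w : E (N + 1)) (j : Fin N) : ℝ := G.c j * inner ℝ w (G.q j)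
noncomputable def Mv (t : ℝ) (w : E (N + 1)) (j : Fin N) : E (N + 1) := (t * G.c j) • G.q j + G.Ga j w
noncomputable def Gm (t : ℝ) (w : E (N + 1)) : Matrix (Fin N) (Fin N) ℝ :=
  Matrix.of fun i j => inner ℝ (G.Mv t w i) (G.Mv t w j) + G.lv w i * G.lv w j
noncomputable def FF (t : ℝ) (w : E (N + 1)) : ℝ := Real.sqrt (G.Gm t w).det
noncomputable def del : ℝ := ∑ j, (1 - G.c j ^ 2)
noncomputable def u2 (w : E (N + 1)) : ℝ := ∑ j, inner ℝ w (G.q j) ^ 2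
noncomputable def eta (w : E (N + 1)) : ℝ := (∑ j, (1 - G.c j ^ 2) * inner ℝ w (G.q j) ^ 2) / G.u2 w
noncomputable def k2 (w : E (N + 1)) : ℝ :=
  inner ℝ w G.e * (∑ j, G.lv w j * inner ℝ (G.Ga j w) G.e) / G.u2 w
noncomputable def Bq (w : E (N + 1)) : ℝ := ∑ j, ‖G.Ga j w‖ ^ 2
noncomputable def al (w : E (N + 1)) : ℝ := 1 - (G.del - G.eta w) / ((N : ℝ) - 1)
noncomputable def be (w : E (N + 1)) : ℝ := (G.Bq w + G.k2 w ^ 2 / G.al w) / ((N : ℝ) - 1) / G.al w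
end GN

noncomputable def GGN {N : ℕ} (G : GN N) : ℝ≥0∞ :=
  ∫⁻ w : E (N + 1), (∫⁻ t : ℝ, ENNReal.ofReal (G.FF t w * gt t * gw w))

/-! ## statements: far region -/

/-- Cauchy-Schwarz on the sphere, written with Gaussian integrals -/
def St_CS : Prop := ∀ (n : ℕ), 3 ≤ n → ∀ (P : PA n) (l : ℝ), 0 < l → l ≤ 1 / 2 →
  P.GJ ^ 2 ≤ ENNReal.ofReal (rho n) * (P.GQ l * GK n l)

def St_GK : Prop := ∀ (n : ℕ), Odd n → ∀ l : ℝ, 0 < l → l ≤ 1 / 2 →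
  GK n l = ENNReal.ofReal (cst n * Eq n 0 l)

/-- average over `f` and over the radius in the `(y,t)` plane -/
def St_GQ : Prop := ∀ (n : ℕ), Odd n → 3 ≤ n → ∀ (P : PA n) (l : ℝ), 0 < l → l ≤ 1 / 2 →
  P.GQ l ≤ ENNReal.ofReal (cst n * mn fun a => P.I a / Real.sqrt (hh l a ^ n))

/-- pointwise algebra -/
def St_PT : Prop := ∀ (n : ℕ), 1 ≤ n → ∀ (P : PA n) (a : ℝ),
  (n : ℝ) * P.I a ≤ (2 * (n : ℝ) + 3) * ((P.H a).adjugate.trace - (P.H a).det)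
    + (2 * ((n : ℝ) + 1) ^ 2 - 4 * ((n : ℝ) + 1) - 1) * P.s ^ 2 * ((P.H a).submatrix Fin.succ Fin.succ).det
    - (((n : ℝ) + 3) / ((n : ℝ) + 1)) * deriv (fun b => (P.Y b).det) a ^ 2

/-- the weighted Wirtinger inequality -/
def St_PIC : Prop := ∀ (n : ℕ) (l : ℝ), 0 < l → l ≤ 1 / 2 → ∀ D : ℝ → ℝ, ContDiff ℝ 1 D →
  ((n : ℝ) + 1) * mn (fun a => (1 - l * (1 - l) / hh l a ^ 2) * D a ^ 2 / Real.sqrt (hh l a ^ n))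
    ≤ mn (fun a => deriv D a ^ 2 / Real.sqrt (hh l a ^ n))

/-- smoothing inequality for `e_{k-1}` and `e_k` on the cube -/
def St_SM : Prop := ∀ (k : ℕ), 2 ≤ k → ∀ (g : Fin k → ℝ), (∀ i, 0 ≤ g i) → (∀ i, g i ≤ 1) →
  ∀ (a b y : ℝ), 0 ≤ a → -(a * ((k : ℝ) - 2)) ≤ b → ∑ i, g i = k * y →
  a * (∑ i, ∏ j ∈ Finset.univ.erase i, g j) + b * ∏ i, g i ≤ a * k * y ^ (k - 1) + b * y ^ k

/-- pointwise inequality for a positive matrix `H ≤ 1` with distinguished index `0` -/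
def St_LA : Prop := ∀ (n : ℕ), 3 ≤ n → ∀ (H : Matrix (Fin (n + 1)) (Fin (n + 1)) ℝ),
  H.PosSemidef → (1 - H).PosSemidef → ∀ (s2 g y : ℝ), 0 ≤ s2 → s2 ≤ 1 → H 0 0 ≤ 1 - s2 →
  g ≤ 3 * ((n : ℝ) + 2) → (H.submatrix Fin.succ Fin.succ).trace = n * y →
  (2 * (n : ℝ) + 3) * H.adjugate.trace - g * H.det
    + (2 * ((n : ℝ) + 1) ^ 2 - 4 * ((n : ℝ) + 1) - 1) * s2 * (H.submatrix Fin.succ Fin.succ).det
  ≤ (2 * (n : ℝ) + 3) * n * H 0 0 * y ^ (n - 1) - g * H 0 0 * y ^ n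
    + ((2 * (n : ℝ) + 3) * (1 - s2) + 2 * ((n : ℝ) + 1) * n * s2) * y ^ n

/-- integrated inequality -/
def St_INT : Prop := ∀ (n : ℕ), Odd n → 3 ≤ n → ∀ (P : PA n) (l : ℝ), P.lam ≤ l → 0 < l → l ≤ 1 / 2 →
  (n : ℝ) * mn (fun a => P.I a / Real.sqrt (hh l a ^ n)) ≤
    (1 + 2 * (l - P.lam)) ^ n * ((1 - P.s ^ 2) * X0 n l + P.s ^ 2 * Y0 n l + P.tau * X1 n l)

/-- `Y0 ≤ X0` -/
def St_XY : Prop := ∀ (n : ℕ), 3 ≤ n → ∀ l : ℝ, 0 < l → l ≤ 1 / 2 → Y0 n l ≤ X0 n l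

def St_KG : Prop := ∀ (n : ℕ), Odd n → 3 ≤ n → G0 n ^ 2 = rho n * cst n ^ 2 * Kn n

def St_G0 : Prop := ∀ (n : ℕ), Odd n → ∀ e : E (n + 2), ‖e‖ = 1 →
  ∫⁻ w : E (n + 2), Psi (n + 1) (‖w‖ ^ 2 - inner ℝ w e ^ 2) * ENNReal.ofReal (gw w) = ENNReal.ofReal (G0 n)

/-- recurrences, `μ = l(1-l)` -/
def St_REC : Prop := ∀ (n : ℕ) (l : ℝ), 0 < l → l ≤ 1 / 2 →
  (∀ k : ℕ, ((n : ℝ) - 2 * k - 1) * Eq n (k + 1) l - ((n : ℝ) - 2 * k) * Eq n k l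
    = ((n : ℝ) - 2 * k - 2) * (l * (1 - l)) * Eq n (k + 2) l)

/-- `X1 ≤ 0` in dimension `N = n + 1 ≥ 6` -/
def St_X1 : Prop := ∀ (n : ℕ), 5 ≤ n → ∀ l : ℝ, 0 < l → l ≤ 1 / 2 → X1 n l ≤ 0

/-- integer moments, `EI k l = mean of h^k` -/
noncomputable def EI : ℕ → ℝ → ℝ
  | 0, _ => 1
  | 1, _ => 1 / 2
  | (q + 2), l => ((2 * (q : ℝ) + 3) * EI (q + 1) l - (2 * (q : ℝ) + 2) * (l * (1 - l)) * EI q l) / (2 * (q : ℝ) + 4)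

/-- bounds of the half-integer moment `E_{m-1/2}` -/
def St_EM : Prop := ∀ (m : ℕ), 1 ≤ m → ∀ l : ℝ, 0 < l → l ≤ 1 / 2 →
  0 ≤ Eq (2 * m - 1) 0 l ∧
  (∀ a : ℝ, 0 ≤ a → a ≤ l → Eq (2 * m - 1) 0 l ^ 2 ≤ EI (m - 1) a * EI m a) ∧
  Eq (2 * m - 1) 0 l ≤ 2 / Real.pi * ((((2 * m - 2)‼ : ℕ) : ℝ) / (((2 * m - 1)‼ : ℕ) : ℝ))

/-- `N = n + 1` -/
noncomputable def gh (n : ℕ) (l : ℝ) : ℝ :=
  2 * ((n : ℝ) + 1) * n + 5 * n / ((n : ℝ) - 2) * l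
    - l * (n / ((n : ℝ) - 1)) * (2 * ((n : ℝ) + 1) ^ 2 - 5 * ((n : ℝ) + 1) + (4 * (n : ℝ) + 3) * l
      + (((n : ℝ) + 1) ^ 2 - 4) / ((n : ℝ) - 2))

noncomputable def gx (n : ℕ) (l : ℝ) : ℝ :=
  2 * n * (2 * (n : ℝ) + 3) + 3 * ((n : ℝ) + 2) - 6 * ((n : ℝ) + 1) + ((n : ℝ) + 3) * n / ((n : ℝ) - 2)
    - n / (((n : ℝ) - 1) - 2 * ((n : ℝ) - 2) * (l * (1 - l)))
      * (n * (2 * (n : ℝ) + 3) + (((n : ℝ) + 1) ^ 2 - 4) / ((n : ℝ) - 2))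

/-- bounds of `X0`, `X1` by `E_p` -/
def St_XB : Prop := ∀ (n : ℕ), 5 ≤ n → ∀ l : ℝ, 0 < l → l ≤ 1 / 2 →
  (1 - 2 * l) * X0 n l ≤ gh n l * Eq n 0 l ∧
  (1 - 2 * l) * X1 n l ≤ -(gx n l * Eq n 0 l) ∧
  X0 n l ≤ (4 * ((n : ℝ) + 1) ^ 2 + (n + 1) + 1) * Eq n 0 l

/-- the final numerical inequality for `N = n + 1 = 2m`, `3 ≤ m ≤ 23` -/
def St_NUM : Prop := ∀ (m : ℕ), 3 ≤ m → m ≤ 23 → ∀ l : ℝ, 1 / (2000 * (m : ℝ)) ≤ l → l ≤ 1 / 2 →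
  (X0 (2 * m - 1) l + max 0 (3 / 20 - (2 * (m : ℝ) - 1) * l) * X1 (2 * m - 1) l) * Eq (2 * m - 1) 0 l
    ≤ 99 / 100 * ((2 * (m : ℝ) - 1) * Kn (2 * m - 1))

/-! ## statements: normal forms -/

/-- every normal form can be rotated to an adapted plane -/
def St_NFP : Prop := ∀ (n : ℕ), 1 ≤ n → ∀ F : Fr (n + 1), ∃ P : PA n, GFr F = P.GJ ∧
  ∃ (t : ℝ) (w : E (n + 2)), t ^ 2 + ‖w‖ ^ 2 = 1 ∧ (F.Gm t w).trace = (n : ℝ) + 1 - (P.tau + n * P.lam)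

/-- every normal form can be rotated to a critical one: `ν` maximises `tr Gm` -/
def St_NFG : Prop := ∀ (N : ℕ), 3 ≤ N → ∀ F : Fr N, (∃ (t : ℝ) (w : E (N + 1)), t ^ 2 + ‖w‖ ^ 2 = 1 ∧
    (N : ℝ) - (F.Gm t w).trace < 1) → ∃ G : GN N, GFr F = GGN G ∧
  (∀ (t : ℝ) (w : E (N + 1)), t ^ 2 + ‖w‖ ^ 2 = 1 → G.del ≤ N - (F.Gm t w).trace) ∧
  (G.del = 0 → F.del = 0)

/-! ## statements: near region -/

def St_SYM : Prop := ∀ (N : ℕ), 3 ≤ N → ∀ (G : GN N) (t : ℝ) (w : E (N + 1)), G.u2 w ≠ 0 → t ≠ 0 →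
  0 < G.al w → 0 ≤ G.be w ∧ (G.FF t w + G.FF (-t) w) / 2 ≤
    Real.exp (-G.del / 2) * Real.sqrt (t ^ 2 + G.u2 w + G.be w) * Real.sqrt ((t ^ 2 + G.be w) ^ (N - 1))

def St_ST6 : Prop := ∀ (u b : ℝ), 0 ≤ u → 0 ≤ b →
  ∫⁻ t : ℝ, ENNReal.ofReal (Real.sqrt (t ^ 2 + u + b) * Real.sqrt ((t ^ 2 + b) ^ 5) * gt t)
    ≤ ENNReal.ofReal (Real.exp (79 / 100 * b)) * Psi 6 u

def St_GK2 : Prop := ∀ (N : ℕ), 2 ≤ N → ∀ (G : GN N) (c : ℝ), 0 ≤ c → c * G.del ≤ 1 / 10 → ∀ t : ℝ,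
  ∫⁻ w : E (N + 1), ENNReal.ofReal (Real.sqrt (t ^ 2 + G.u2 w) * Real.exp (c * G.k2 w ^ 2) * gw w)
    ≤ ENNReal.ofReal (1 + 6 / 5 * c * G.del / N) *
      ∫⁻ w : E (N + 1), ENNReal.ofReal (Real.sqrt (t ^ 2 + G.u2 w) * gw w)

def St_NEAR : Prop := ∀ (m : ℕ), 3 ≤ m → ∀ G : GN (2 * m), G.del ≤ 3 / 20 →
  GGN G ≤ ENNReal.ofReal (Real.exp (-(G.del / 100))) *
    ∫⁻ w : E (2 * m + 1), Psi (2 * m) (‖w‖ ^ 2 - inner ℝ w G.e ^ 2) * ENNReal.ofReal (gw w)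

end Pool.Agent.W546.ST
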