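import Mathlib
import Pool.Agent.W546.ST.Defs
import Pool.Agent.W546.ST.NumC
import Pool.Agent.W160.ST.EM
import Pool.Agent.W160.ST.PIC
import Pool.Agent.W191.ST.ST6
import Pool.Agent.W239.ST.GK2
import Pool.Agent.W253.ST.NFP
import Pool.Agent.W356.ST.GK
import Pool.Agent.W367.ST.NFG
import Pool.Agent.W38.ST.SM
import Pool.Agent.W395.ST.NEAR
import Pool.Agent.W597.ST.SYM
import Pool.Agent.W636.ST.PT
import Pool.Agent.W683.ST.Int
import Pool.Agent.W718.ST.LA
import Pool.Agent.W790.ST.KG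
import Pool.Agent.W797.ST.REC
import Pool.Agent.W925.ST.XB

/-!
# The core inequality with a constant `κ` in dimensions `N = 2m`, `3 ≤ m ≤ 23`
-/
set_option autoImplicit false
open Matrix MeasureTheory Set Metric Filter Topology
open scoped ENNReal Nat

namespace Pool.Agent.W546.ST
open Pool.Agent.Helper82.OS

theorem la : St_LA := Pool.Agent.W718.ST.LA Pool.Agent.W38.ST.SM
theorem int : St_INT := Pool.Agent.W683.ST.INT Pool.Agent.W636.ST.PT Pool.Agent.W160.ST.PIC la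
theorem num : St_NUM := NumC.NUM Pool.Agent.W160.ST.EM2 (Pool.Agent.W925.ST.XB Pool.Agent.W797.ST.REC)
theorem near : St_NEAR :=
  Pool.Agent.W395.ST.NEAR Pool.Agent.W597.ST.SYM Pool.Agent.W191.ST.ST6 Pool.Agent.W239.ST.GK2

theorem PA.tau_nonneg {n : ℕ} (P : PA n) : 0 ≤ P.tau := by
  unfold PA.tau
  exact dotProduct_self_star_nonneg (P.A 0) |> fun h => by simpa using h

theorem PA.lam_nonneg {n : ℕ} (P : PA n) : 0 ≤ P.lam := by
  unfold PA.lam
  refine div_nonneg (Finset.sum_nonneg fun j _ => ?_) (Nat.cast_nonneg _)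
  have := dotProduct_self_star_nonneg (P.A j.succ)
  simpa using this

theorem PA.lam_le {n : ℕ} (hn : 1 ≤ n) (P : PA n) : P.lam ≤ 1 / 2 := by
  unfold PA.lam
  have hn0 : (0 : ℝ) < n := by exact_mod_cast hn
  rw [div_le_iff₀ hn0]
  have := P.hl
  linarith

theorem PA.s_sq_le {n : ℕ} (P : PA n) : P.s ^ 2 ≤ 1 := by
  have h := congrFun (congrFun P.on 0) 0
  simp only [Matrix.add_apply, Matrix.single_apply_same, Matrix.one_apply_eq, Matrix.mul_apply,
    Matrix.transpose_apply] at h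
  have h1 : 0 ≤ ∑ j, P.A 0 j * P.A 0 j := Finset.sum_nonneg fun j _ => mul_self_nonneg _
  have h2 : 0 ≤ ∑ j, P.C 0 j * P.C 0 j := Finset.sum_nonneg fun j _ => mul_self_nonneg _
  linarith

theorem G0_pos (n : ℕ) : 0 < G0 n := by
  unfold G0
  have h1 : (0 : ℝ) < ((2 * n + 1)‼ : ℝ) := by exact_mod_cast Nat.doubleFactorial_pos _
  have h2 : (0 : ℝ) < (n ! : ℝ) := by exact_mod_cast Nat.factorial_pos _
  have h3 : (0 : ℝ) < (((n - 1) / 2)! : ℝ) := by exact_mod_cast Nat.factorial_pos _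
  have := Real.pi_pos
  positivity

theorem cst_pos (n : ℕ) : 0 < cst n := by
  unfold cst
  have h1 : (0 : ℝ) < (n‼ : ℝ) := by exact_mod_cast Nat.doubleFactorial_pos _
  have := Real.pi_pos
  positivity

theorem rho_pos (n : ℕ) : 0 < rho n := by
  unfold rho
  have h1 : 0 < Real.Gamma ((n : ℝ) + 2) := Real.Gamma_pos_of_pos (by positivity)
  have h2 : 0 < Real.Gamma ((n : ℝ) + 5 / 2) := Real.Gamma_pos_of_pos (by positivity)
  have h3 : 0 < Real.Gamma ((n : ℝ) + 3 / 2) := Real.Gamma_pos_of_pos (by positivity)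
  positivity

/-- far region -/
theorem far (hCS : St_CS) (hGQ : St_GQ) {m n : ℕ} (hm : 3 ≤ m) (hm' : m ≤ 23) (hn : n = 2 * m - 1)
    (P : PA n) (hP : 3 / 20 ≤ P.tau + (n : ℝ) * P.lam) :
    P.GJ ≤ ENNReal.ofReal (999 / 1000) * ENNReal.ofReal (G0 n) := by
  have hmR : (3 : ℝ) ≤ m := by exact_mod_cast hm
  have hm0 : (0 : ℝ) < m := by linarith
  have hnR : (n : ℝ) = 2 * (m : ℝ) - 1 := by
    rw [hn, Nat.cast_sub (by omega)]; push_cast; ring
  have hn0 : (0 : ℝ) < n := by rw [hnR]; linarith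
  have hodd : Odd n := ⟨m - 1, by omega⟩
  have hn5 : 5 ≤ n := by omega
  set l : ℝ := max P.lam (1 / (2000 * (m : ℝ))) with hl
  have hl1 : P.lam ≤ l := le_max_left _ _
  have hl2 : 1 / (2000 * (m : ℝ)) ≤ l := le_max_right _ _
  have hl0 : 0 < l := lt_of_lt_of_le (by positivity) hl2
  have hl3 : l ≤ 1 / 2 := by
    refine max_le (P.lam_le (by omega)) ?_
    rw [div_le_div_iff₀ (by positivity) (by norm_num)]
    linarith
  have hdiff : l - P.lam ≤ 1 / (2000 * (m : ℝ)) := by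
    rcases max_cases P.lam (1 / (2000 * (m : ℝ))) with ⟨h, -⟩ | ⟨h, -⟩
    · rw [hl, h, sub_self]; positivity
    · rw [hl, h]; linarith [P.lam_nonneg]
  -- Cauchy-Schwarz
  have h1 := hCS n (by omega) P l hl0 hl3
  have h2 := hGQ n hodd (by omega) P l hl0 hl3
  have h3 := Pool.Agent.W356.ST.GKt n hodd l hl0 hl3
  have h4 := int n hodd (by omega) P l hl1 hl0 hl3
  have h5 := Pool.Agent.W797.ST.XY n (by omega) l hl0 hl3
  have h6 := Pool.Agent.W797.ST.X1neg n (by omega) l hl0 hl3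
  have h7 := num m hm hm' l hl2 hl3
  have h8 := (Pool.Agent.W160.ST.EM2 m (by omega) l hl0 hl3).1
  rw [← hn] at h7 h8
  rw [← hnR] at h7
  have hs1 := P.s_sq_le
  have hs0 := sq_nonneg P.s
  -- theta
  have hth1 : 1 ≤ 1 + 2 * (l - P.lam) := by linarith
  have hth : (1 + 2 * (l - P.lam)) ^ n ≤ 1003 / 1000 := by
    have e1 : 1 + 2 * (l - P.lam) ≤ Real.exp (1 / (1000 * (m : ℝ))) := by
      have := Real.add_one_le_exp (1 / (1000 * (m : ℝ)))
      have e2 : 2 * (1 / (2000 * (m : ℝ))) = 1 / (1000 * (m : ℝ)) := by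
        field_simp; norm_num
      linarith
    calc (1 + 2 * (l - P.lam)) ^ n ≤ (Real.exp (1 / (1000 * (m : ℝ)))) ^ n :=
          pow_le_pow_left₀ (by linarith) e1 _
      _ = Real.exp ((n : ℝ) * (1 / (1000 * (m : ℝ)))) := by rw [← Real.exp_nat_mul]
      _ ≤ Real.exp (1 / 500) := by
          apply Real.exp_le_exp.2
          rw [hnR, mul_one_div, div_le_div_iff₀ (by positivity) (by norm_num)]
          nlinarith
      _ ≤ 1003 / 1000 := by
          have := Real.exp_bound_div_one_sub_of_interval (x := 1 / 500) (by norm_num) (by norm_num)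
          refine this.trans ?_
          norm_num
  -- the real inequality
  set I : ℝ := mn fun a => P.I a / Real.sqrt (hh l a ^ n) with hI
  set e : ℝ := Eq n 0 l with he
  have hT0 : 0 ≤ P.tau := P.tau_nonneg
  have htau : max 0 (3 / 20 - (n : ℝ) * l) ≤ P.tau := by
    refine max_le hT0 ?_
    have h9 : (n : ℝ) * P.lam ≤ n * l := mul_le_mul_of_nonneg_left hl1 hn0.le
    linarith [h9, hP]
  have hXX : (1 - P.s ^ 2) * X0 n l + P.s ^ 2 * Y0 n l + P.tau * X1 n l ≤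
      X0 n l + max 0 (3 / 20 - (n : ℝ) * l) * X1 n l := by
    have e1 : P.s ^ 2 * Y0 n l ≤ P.s ^ 2 * X0 n l := mul_le_mul_of_nonneg_left h5 hs0
    have e2 : P.tau * X1 n l ≤ max 0 (3 / 20 - (n : ℝ) * l) * X1 n l :=
      mul_le_mul_of_nonpos_right htau h6
    linarith
  have hnI : (n : ℝ) * I * e ≤ 1003 / 1000 * (99 / 100 * ((n : ℝ) * Kn n)) := by
    have hK : 0 ≤ 99 / 100 * ((n : ℝ) * Kn n) := by
      have : 0 ≤ Kn n := by unfold Kn; positivity
      positivity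
    have hth0 : 0 ≤ (1 + 2 * (l - P.lam)) ^ n := by positivity
    calc (n : ℝ) * I * e ≤ ((1 + 2 * (l - P.lam)) ^ n *
          ((1 - P.s ^ 2) * X0 n l + P.s ^ 2 * Y0 n l + P.tau * X1 n l)) * e :=
          mul_le_mul_of_nonneg_right h4 h8
      _ = (1 + 2 * (l - P.lam)) ^ n *
          (((1 - P.s ^ 2) * X0 n l + P.s ^ 2 * Y0 n l + P.tau * X1 n l) * e) := by ring
      _ ≤ (1 + 2 * (l - P.lam)) ^ n * (99 / 100 * ((n : ℝ) * Kn n)) := by
          refine mul_le_mul_of_nonneg_left ?_ hth0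
          exact (mul_le_mul_of_nonneg_right hXX h8).trans h7
      _ ≤ 1003 / 1000 * (99 / 100 * ((n : ℝ) * Kn n)) := mul_le_mul_of_nonneg_right hth hK
  have hreal : rho n * ((cst n * I) * (cst n * e)) ≤ (999 / 1000 * G0 n) ^ 2 := by
    have hKG := Pool.Agent.W790.ST.KG n hodd (by omega)
    rw [mul_pow, hKG]
    have hIe : I * e ≤ 1003 / 1000 * (99 / 100 * Kn n) := by
      have : (n : ℝ) * (I * e) ≤ n * (1003 / 1000 * (99 / 100 * Kn n)) := by linarith
      exact le_of_mul_le_mul_left this hn0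
    have hr := rho_pos n
    have hc := cst_pos n
    have hK : 0 ≤ Kn n := by unfold Kn; positivity
    have e1 : rho n * (cst n * I * (cst n * e)) = (rho n * cst n ^ 2) * (I * e) := by ring
    rw [e1]
    have e2 : (rho n * cst n ^ 2) * (I * e) ≤
        (rho n * cst n ^ 2) * (1003 / 1000 * (99 / 100 * Kn n)) :=
      mul_le_mul_of_nonneg_left hIe (by positivity)
    have e3 : 0 ≤ rho n * cst n ^ 2 * Kn n := by positivity
    nlinarith
  have hsq : P.GJ ^ 2 ≤ (ENNReal.ofReal (999 / 1000 * G0 n)) ^ 2 := by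
    rw [h3] at h1
    refine h1.trans ?_
    have hc := cst_pos n
    calc ENNReal.ofReal (rho n) * (P.GQ l * ENNReal.ofReal (cst n * Eq n 0 l))
        ≤ ENNReal.ofReal (rho n) * (ENNReal.ofReal (cst n * I) * ENNReal.ofReal (cst n * e)) := by
          gcongr
      _ = ENNReal.ofReal (rho n * ((cst n * I) * (cst n * e))) := by
          rw [ENNReal.ofReal_mul (rho_pos n).le,
            ENNReal.ofReal_mul' (mul_nonneg hc.le h8)]
      _ ≤ ENNReal.ofReal ((999 / 1000 * G0 n) ^ 2) := ENNReal.ofReal_le_ofReal hreal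
      _ = _ := ENNReal.ofReal_pow (by have := G0_pos n; positivity) 2
  rw [← ENNReal.ofReal_mul (by norm_num)]
  exact (ENNReal.pow_le_pow_left_iff two_ne_zero).1 hsq

theorem Fr.u2_eq {N : ℕ} (F : Fr N) (w : E (N + 1)) : F.u2 w = ‖w‖ ^ 2 - inner ℝ w F.e ^ 2 := by
  rw [F.u2_pr, Fr.pr, norm_sub_sq_real, real_inner_smul_right, norm_smul, F.he, Real.norm_eq_abs,
    mul_one, sq_abs]
  ring

/-- the Gaussian core inequality with a constant, `3 ≤ m ≤ 23` -/
theorem gcore (hCS : St_CS) (hGQ : St_GQ) {m : ℕ} (hm : 3 ≤ m) (hm' : m ≤ 23) (F : Fr (2 * m)) :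
    ∃ κ : ℝ≥0∞, κ ≤ 1 ∧ (κ = 1 → F.del = 0) ∧
      ∫⁻ w : E (2 * m + 1), (∫⁻ t : ℝ, ENNReal.ofReal (F.FF t w * gt t * gw w))
        ≤ κ * ∫⁻ w : E (2 * m + 1), Psi (2 * m) (F.u2 w) * ENNReal.ofReal (gw w) := by
  obtain ⟨k, rfl⟩ : ∃ k, m = k + 1 := ⟨m - 1, by omega⟩
  have hodd : Odd (2 * k + 1) := ⟨k, rfl⟩
  have hG0 : ∀ e : E (2 * (k + 1) + 1), ‖e‖ = 1 →
      ∫⁻ w : E (2 * (k + 1) + 1), Psi (2 * (k + 1)) (‖w‖ ^ 2 - inner ℝ w e ^ 2) *
        ENNReal.ofReal (gw w) = ENNReal.ofReal (G0 (2 * k + 1)) :=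
    fun e he => Pool.Agent.W790.ST.G0t (2 * k + 1) hodd e he
  have hR : ∫⁻ w : E (2 * (k + 1) + 1), Psi (2 * (k + 1)) (F.u2 w) * ENNReal.ofReal (gw w) =
      ENNReal.ofReal (G0 (2 * k + 1)) := by
    rw [← hG0 F.e F.he]
    refine lintegral_congr fun w => ?_
    rw [Fr.u2_eq]
  rw [hR]
  obtain ⟨P, hP, t, w, htw, htr⟩ := Pool.Agent.W253.ST.NFP (2 * k + 1) (by omega) F
  change ∃ κ : ℝ≥0∞, κ ≤ 1 ∧ (κ = 1 → F.del = 0) ∧ GFr F ≤ κ * ENNReal.ofReal (G0 (2 * k + 1))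
  rcases le_or_gt (3 / 20) (P.tau + ((2 * k + 1 : ℕ) : ℝ) * P.lam) with h | h
  · refine ⟨ENNReal.ofReal (999 / 1000), ?_, ?_, ?_⟩
    · rw [ENNReal.ofReal_le_one]; norm_num
    · intro h1
      rw [ENNReal.ofReal_eq_one] at h1
      norm_num at h1
    · rw [hP]
      exact far hCS hGQ (m := k + 1) hm hm' (by omega) P h
  · have htr2 : ((2 * (k + 1) : ℕ) : ℝ) - (F.Gm t w).trace =
        P.tau + ((2 * k + 1 : ℕ) : ℝ) * P.lam := by
      rw [htr]
      push_cast
      ring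
    obtain ⟨G, hG, hdel, hz⟩ := Pool.Agent.W367.ST.NFG (2 * (k + 1)) (by omega) F
      ⟨t, w, htw, by rw [htr2]; linarith⟩
    have hd := hdel t w htw
    rw [htr2] at hd
    have hn := near (k + 1) hm G (by linarith)
    rw [hG0 G.e G.he] at hn
    have hd0 : 0 ≤ G.del := by
      unfold GN.del
      refine Finset.sum_nonneg fun j _ => ?_
      have h1 := G.hcs j
      have h2 : 0 ≤ ∑ a, ‖G.Ga j (EuclideanSpace.single a 1)‖ ^ 2 :=
        Finset.sum_nonneg fun _ _ => by positivity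
      linarith
    refine ⟨ENNReal.ofReal (Real.exp (-(G.del / 100))), ?_, ?_, ?_⟩
    · rw [ENNReal.ofReal_le_one, Real.exp_le_one_iff]
      linarith
    · intro h1
      rw [ENNReal.ofReal_eq_one, Real.exp_eq_one_iff] at h1
      exact hz (by linarith)
    · rw [hG]
      exact hn

end Pool.Agent.W546.ST
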