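import Mathlib
import Pool.Agent.Helper82.OS.Defs
import Pool.Agent.Helper82.OS.Defs2
import Pool.Agent.Helper82.OS.Defs3
import Pool.Agent.Helper82.OS.JJ_homog
import Pool.Agent.Helper82.OS.cN_eq
import Pool.Agent.Helper82.OS.gnomonic
import Pool.Agent.Helper82.OS.star_of_core
import Pool.Agent.Helper82.OS.vol_le
import Pool.Agent.Helper82.OS.normal_form2
import Pool.Agent.Helper82.OS.core_of_g2
import Pool.Agent.Helper82.OS.star24
import Pool.Agent.Helper734.UM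
import Pool.Agent.Helper971.OS.R_umb
import Pool.Agent.W546.ST.Core

/-!
# The pointwise inequality and its equality case in dimensions `N = 2m`, `m ≥ 3`

The last two proofs are those of `Pool.Agent.Helper82.OS.star24`, `strict24`.
-/
set_option autoImplicit false
open Matrix MeasureTheory Set Metric Filter Topology
open scoped ENNReal ContDiff

namespace Pool.Agent.W546.ST
open Pool.Agent.Helper82.OS

/-- the gnomonic core inequality with a constant `κ ≤ 1`, and `κ < 1` unless `δ = 0` -/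
theorem core3_kappa (hCS : St_CS) (hGQ : St_GQ) {m : ℕ} (hm : 3 ≤ m) (F : Fr (2 * m)) :
    ∃ κ : ℝ≥0∞, κ ≤ 1 ∧ (κ = 1 → F.del = 0) ∧
      ∫⁻ w : sphere (0 : E (2 * m + 1)) 1, (∫⁻ t : ℝ, ENNReal.ofReal (F.FF t w * K (2 * m) t)) ∂(sg (2 * m + 1))
      ≤ κ * ∫⁻ w : sphere (0 : E (2 * m + 1)) 1, A0 (2 * m) (inner ℝ (w : E (2 * m + 1)) F.e) ∂(sg (2 * m + 1)) := by
  rcases le_or_gt m 23 with h | h
  · obtain ⟨κ, h1, h2, h3⟩ := gcore hCS hGQ hm h F
    exact ⟨κ, h1, h2, core_of_g2 (by omega) F _ h3⟩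
  · exact core24_kappa (by omega) F

theorem star3 (hCS : St_CS) (hGQ : St_GQ) {m : ℕ} (hm : 3 ≤ m) :
    Pool.Agent.Helper82.OS.Star (2 * m) := by
  refine star_of_core (by omega) (fun F => ?_)
  obtain ⟨κ, hκ1, -, h⟩ := core3_kappa hCS hGQ hm F
  exact h.trans ((mul_le_mul_left hκ1 _).trans (one_mul _).le)

/-- equality in the pointwise inequality forces the umbilic case -/
theorem star3_eq (hCS : St_CS) (hGQ : St_GQ) {m : ℕ} (hm : 3 ≤ m) (x v : Fin (2 * m + 2) → ℝ)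
    (B : Matrix (Fin (2 * m + 2)) (Fin (2 * m + 2)) ℝ)
    (hx : x ⬝ᵥ x = 1) (hv : v ⬝ᵥ v = 1) (hxv : x ⬝ᵥ v = 0) (h0 : B *ᵥ x = 0) (h1 : x ᵥ* B = 0)
    (h2 : v ᵥ* B = 0)
    (heq : ∫⁻ f : sphere (0 : E (2 * m + 2)) 1, ENNReal.ofReal (JJ x v B (f : E (2 * m + 2)).ofLp) ∂(sg (2 * m + 2))
      = ENNReal.ofReal (Real.sqrt (1 + B * Bᵀ).det) * cN (2 * m)) :
    ∃ lam : ℝ, ∀ k, x ⬝ᵥ k = 0 → v ⬝ᵥ k = 0 → B *ᵥ k = lam • k := by
  obtain ⟨v', ι, F, hv', hι, hmp, hum, hJ⟩ := normal_form2 (by omega : 1 ≤ 2 * m) x v B hx hv hxv h0 h1 h2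
  obtain ⟨κ, hκ1, hκ, hcore⟩ := core3_kappa hCS hGQ hm F
  refine hum (hκ ?_)
  have hg : Measurable fun f : E (2 * m + 2) => ENNReal.ofReal (JJ x v B f.ofLp) :=
    (star_of_core_cont_star_of_corex x v B).measurable.ennreal_ofReal
  have hh : ∀ r : ℝ, 0 < r → ∀ z : E (2 * m + 2), ENNReal.ofReal (JJ x v B (r • z).ofLp) =
      ENNReal.ofReal (r ^ (2 * m)) * ENNReal.ofReal (JJ x v B z.ofLp) := by
    intro r hr z
    rw [WithLp.ofLp_smul, JJ_homog x v B z.ofLp hx hv hxv h1 h2 r hr.le,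
      ENNReal.ofReal_mul (by positivity)]
  rw [gnomonic v' hv' ι hι hmp _ hg hh] at heq
  have hs0 : 0 ≤ Real.sqrt (1 + B * Bᵀ).det := Real.sqrt_nonneg _
  have e1 : ∀ w : sphere (0 : E (2 * m + 1)) 1,
      (∫⁻ t : ℝ, ENNReal.ofReal (JJ x v B (t • v' + ι (w : E (2 * m + 1))).ofLp) *
        ENNReal.ofReal (((1 + t ^ 2) ^ (2 * m + 1))⁻¹)) =
      ENNReal.ofReal (Real.sqrt (1 + B * Bᵀ).det) *
        ∫⁻ t : ℝ, ENNReal.ofReal (F.FF t w * K (2 * m) t) := by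
    intro w
    rw [← lintegral_const_mul' _ _ ENNReal.ofReal_ne_top]
    apply lintegral_congr
    intro t
    have hK : 0 ≤ ((1 + t ^ 2) ^ (2 * m + 1))⁻¹ := by positivity
    have hF : 0 ≤ F.FF t w := Real.sqrt_nonneg _
    rw [hJ, ENNReal.ofReal_mul hs0, mul_assoc, ← ENNReal.ofReal_mul hF]
    rfl
  rw [lintegral_congr e1, lintegral_const_mul' _ _ ENNReal.ofReal_ne_top, cN_eq (by omega : 1 ≤ 2 * m) F.e F.he] at heq
  have hdet : 0 < Real.sqrt (1 + B * Bᵀ).det := by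
    apply Real.sqrt_pos.2
    have hpd : (1 + B * Bᵀ).PosDef := by
      have h3 : (B * Bᵀ).PosSemidef := by
        have := Matrix.posSemidef_self_mul_conjTranspose B
        simpa using this
      exact Matrix.PosDef.one.add_posSemidef h3
    exact hpd.det_pos
  have hne : ENNReal.ofReal (Real.sqrt (1 + B * Bᵀ).det) ≠ 0 := by
    rw [Ne, ENNReal.ofReal_eq_zero, not_le]; exact hdet
  have heq2 := (ENNReal.mul_right_inj hne ENNReal.ofReal_ne_top).1 heq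
  set I := ∫⁻ w : sphere (0 : E (2 * m + 1)) 1, A0 (2 * m) (inner ℝ (w : E (2 * m + 1)) F.e) ∂(sg (2 * m + 1)) with hI
  have hcN := vol_le_cN_vol_lex (N := 2 * m) (even_two_mul m) (by omega)
  rw [cN_eq (by omega : 1 ≤ 2 * m) F.e F.he, ← hI] at hcN
  have hI0 : I ≠ 0 := by
    intro h
    apply hcN.1
    rw [h, mul_zero]
  have hIt : I ≠ ⊤ := by
    intro h
    apply hcN.2
    rw [h, ENNReal.mul_top]
    rw [Ne, ENNReal.ofReal_eq_zero, not_le]
    positivity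
  rw [heq2] at hcore
  refine le_antisymm hκ1 ((ENNReal.mul_le_mul_iff_right hI0 hIt).1 ?_)
  rwa [mul_one, mul_comm I κ]

/-- strict lower bound for the volume of smooth unit fields, `m ≥ 3` -/
theorem strict3 (hCS : St_CS) (hGQ : St_GQ) {m : ℕ} (hm : 3 ≤ m) {V : E (2 * m + 2) → E (2 * m + 2)}
    (hV : UT V) :
    ENNReal.ofReal ((16 : ℝ) ^ m / ((4 * m).choose (2 * m) : ℝ)) * sg (2 * m + 2) univ <
      ∫⁻ x : sphere (0 : E (2 * m + 2)) 1, ENNReal.ofReal (dens V x) ∂(sg (2 * m + 2)) := by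
  by_contra h
  rw [not_lt] at h
  exact Pool.Agent.Helper734.UM.no_umbilic (by omega) hV
    (umb_of_eq2 (by omega) (star3 hCS hGQ hm)
      (fun x v B h1 h2 h3 h4 h5 h6 h7 => star3_eq hCS hGQ hm x v B h1 h2 h3 h4 h5 h6 h7) hV h)

end Pool.Agent.W546.ST
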