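import Mathlib
import Pool.Agent.W546.ST.Star3
import Pool.Agent.W356.ST.CS
import Pool.Agent.W356.ST.GQ

/-!
# Strict lower bound for the volume of smooth unit fields on `S^{2m+1}`, `m ≥ 3`
-/
set_option autoImplicit false
open Matrix MeasureTheory Set Metric Filter Topology
open scoped ENNReal ContDiff

namespace Pool.Agent.W546.ST
open Pool.Agent.Helper82.OS

theorem star_ge3 {m : ℕ} (hm : 3 ≤ m) : Pool.Agent.Helper82.OS.Star (2 * m) :=
  star3 Pool.Agent.W356.ST.CS Pool.Agent.W356.ST.GQt hm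

theorem strict {m : ℕ} (hm : 3 ≤ m) {V : E (2 * m + 2) → E (2 * m + 2)} (hV : UT V) :
    ENNReal.ofReal ((16 : ℝ) ^ m / ((4 * m).choose (2 * m) : ℝ)) * sg (2 * m + 2) univ <
      ∫⁻ x : sphere (0 : E (2 * m + 2)) 1, ENNReal.ofReal (dens V x) ∂(sg (2 * m + 2)) :=
  strict3 Pool.Agent.W356.ST.CS Pool.Agent.W356.ST.GQt hm hV

end Pool.Agent.W546.ST
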